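import Pool.Agent.Helper65.JL.Stmts

/-! Row CAR of the sheet JL: a cofinal family of countable sets indexed by points of large weight. -/

open Set Filter Topology Pool.Agent.Helper86.TK
open scoped Cardinal

namespace Pool.Agent.Helper65.JL

theorem st_CAR (h : ST_COF) : ST_CAR := by
  classical
  intro hc Γ r η hP hΓ
  by_cases hcount : (univ : Set Γ).Countable
  · obtain ⟨x₀⟩ := hΓ
    refine ⟨{univ}, η x₀, fun _ => x₀, ?_, ?_, (hP.2 x₀).1, ?_, fun _ => le_rfl⟩
    · intro d hd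
      rw [mem_singleton_iff.1 hd]
      exact hcount
    · intro H _
      exact ⟨univ, mem_singleton _, subset_univ _⟩
    · intro a b _
      apply Subtype.ext
      rw [mem_singleton_iff.1 a.2, mem_singleton_iff.1 b.2]
  · have h1 : ℵ₀ < #Γ := by
      rw [← not_le]
      intro hle
      apply hcount
      rw [← Cardinal.le_aleph0_iff_set_countable, Cardinal.mk_univ]
      exact hle
    have h2 : #Γ ≤ Cardinal.continuum := by
      refine (Cardinal.mk_le_of_injective hP.1).trans (le_of_eq ?_)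
      rw [← Cardinal.power_def, Cardinal.mk_bool, Cardinal.mk_nat, Cardinal.two_power_aleph0]
    have h3 : #Γ < ℵ_ Ordinal.omega0 := h2.trans_lt hc
    obtain ⟨o, ho⟩ := Cardinal.mem_range_aleph_iff.2 h1.le
    rw [← ho, Cardinal.aleph_lt_aleph, Ordinal.lt_omega0] at h3
    obtain ⟨n, rfl⟩ := h3
    have hn : n ≠ 0 := by
      rintro rfl
      rw [← ho, Nat.cast_zero, Cardinal.aleph_zero] at h1
      exact lt_irrefl _ h1
    obtain ⟨m, rfl⟩ := Nat.exists_eq_succ_of_ne_zero hn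
    have hreg : (ℵ_ ((m.succ : ℕ) : Ordinal)).IsRegular := by
      rw [Nat.cast_succ]
      exact Cardinal.isRegular_aleph_add_one (m : Ordinal)
    obtain ⟨D, hD, hDc, hDcof⟩ := h m.succ Γ ho.ge
    have hU : (⋃ k : ℕ, {x : Γ | (1 / 2 : ℝ) ^ k ≤ η x}) = univ := by
      apply eq_univ_of_forall
      intro x
      obtain ⟨k, hk⟩ := exists_pow_lt_of_lt_one (hP.2 x).1 (by norm_num : (1 / 2 : ℝ) < 1)
      exact mem_iUnion.2 ⟨k, hk.le⟩
    have hex : ∃ k : ℕ, ℵ_ ((m.succ : ℕ) : Ordinal) ≤ #{x : Γ | (1 / 2 : ℝ) ^ k ≤ η x} := by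
      by_contra hcon
      push Not at hcon
      have h6 := (Cardinal.card_iUnion_lt_iff_forall_of_isRegular
        (t := fun k : ℕ => {x : Γ | (1 / 2 : ℝ) ^ k ≤ η x}) hreg
        (by rw [Cardinal.mk_nat, ho]; exact h1)).2 hcon
      rw [hU, Cardinal.mk_univ, ← ho] at h6
      exact lt_irrefl _ h6
    obtain ⟨k, hk⟩ := hex
    have h7 : #D ≤ #{x : Γ | (1 / 2 : ℝ) ^ k ≤ η x} := hD.trans hk
    obtain ⟨e⟩ := h7
    exact ⟨D, (1 / 2 : ℝ) ^ k, fun d => (e d).1, hDc, hDcof, by positivity,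
      fun a b hab => e.injective (Subtype.ext hab), fun d => (e d).2⟩

end Pool.Agent.Helper65.JL
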